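import Pool.Agent.Q215.TD.Stm

/-!
# Project TD: elementary facts about the balls
-/

set_option autoImplicit false

namespace Pool.Agent.Q275.TD

open Filter Topology Pool.Agent.Q215.TD

variable {n : ℕ}

theorem norm_le_of_qn {v : W n} {r : ℝ} (hr : 0 ≤ r) (h : qn v ≤ r ^ 2) : ‖v‖ ≤ r := by
  unfold qn at h
  rw [norm_prod_le_iff]
  constructor
  · exact le_of_sq_le_sq (by nlinarith [sq_nonneg ‖v.2‖]) hr
  · exact le_of_sq_le_sq (by nlinarith [sq_nonneg ‖v.1‖]) hr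

theorem rad_pos (k : ℕ) : 0 < rad k := by
  unfold rad
  positivity

theorem rad_le (k : ℕ) : rad k ≤ 1 / 32 := by
  unfold rad
  apply one_div_le_one_div_of_le (by norm_num)
  have : (0 : ℝ) ≤ k := by positivity
  nlinarith

theorem rad_le' (k : ℕ) : rad k ≤ 1 / ((k : ℝ) + 1) := by
  unfold rad
  apply one_div_le_one_div_of_le (by positivity)
  have : (0 : ℝ) ≤ k := by positivity
  nlinarith

theorem rad_tendsto : Tendsto rad atTop (𝓝 0) := by
  refine squeeze_zero (fun k => (rad_pos k).le) rad_le' ?_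
  exact tendsto_one_div_add_atTop_nhds_zero_nat

theorem rp_abs (k : ℕ) : |rp k| = 1 / ((k : ℝ) + 1) := by
  unfold rp
  rw [abs_div, abs_pow, abs_neg, abs_one, one_pow, abs_of_pos (by positivity : (0 : ℝ) < (k : ℝ) + 1)]

theorem rp_tendsto : Tendsto rp atTop (𝓝 0) := by
  rw [tendsto_zero_iff_abs_tendsto_zero]
  have : (abs ∘ rp) = fun k : ℕ => 1 / ((k : ℝ) + 1) := by
    funext k
    exact rp_abs k
  rw [this]
  exact tendsto_one_div_add_atTop_nhds_zero_nat

theorem sq_mem (t : ℝ) : 1 / 4 ≤ Pool.Agent.Q215.TD.sq t ∧ Pool.Agent.Q215.TD.sq t ≤ 3 / 4 := by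
  unfold Pool.Agent.Q215.TD.sq
  refine ⟨le_max_left _ _, max_le (by norm_num) (min_le_left _ _)⟩

theorem qs_mem (j : ℕ) : 0 ≤ qs j ∧ qs j ≤ 1 := by
  unfold qs
  exact (TopologicalSpace.denseSeq (Set.Icc (0 : ℝ) 1) j.unpair.1).2

theorem ht_mem (x : ℕ → ℝ) (k : ℕ) : 0 ≤ ht x k ∧ ht x k ≤ 1 := by
  unfold ht
  split_ifs
  · have := sq_mem (x (k / 2))
    constructor <;> linarith
  · exact qs_mem _

theorem cen_norm (x : ℕ → ℝ) (k : ℕ) : ‖(cen x k : W n)‖ ≤ 2 := by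
  rw [norm_prod_le_iff]
  constructor
  · refine (Complex.norm_le_abs_re_add_abs_im _).trans ?_
    show |rp k| + |ht x k| ≤ 2
    have h1 := ht_mem x k
    rw [rp_abs, abs_of_nonneg h1.1]
    have h2 : 1 / ((k : ℝ) + 1) ≤ 1 := by
      rw [div_le_one (by positivity)]
      have : (0 : ℝ) ≤ k := by positivity
      linarith
    linarith [h1.2]
  · show ‖(0 : EuclideanSpace ℝ (Fin n))‖ ≤ 2
    rw [norm_zero]
    norm_num

theorem UU_dist {x : ℕ → ℝ} {k : ℕ} {w : W n} (hw : w ∈ UU (n := n) x k) :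
    ‖w - cen x k‖ ≤ rad k :=
  norm_le_of_qn (rad_pos k).le hw.1.le

theorem UU_norm {x : ℕ → ℝ} {k : ℕ} {w : W n} (hw : w ∈ UU (n := n) x k) : ‖w‖ < 3 := by
  have h1 := UU_dist hw
  have h2 := cen_norm (n := n) x k
  have h3 := rad_le k
  have h4 : ‖w‖ ≤ ‖w - cen x k‖ + ‖(cen x k : W n)‖ := by
    calc ‖w‖ = ‖(w - cen x k) + cen x k‖ := by rw [sub_add_cancel]
      _ ≤ _ := norm_add_le _ _
  linarith

theorem UU_source {M : Type} [TopologicalSpace M] {J : OpenPartialHomeomorph (W n) M}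
    (hJ : Metric.closedBall 0 3 ⊆ J.source) {x : ℕ → ℝ} {k : ℕ} {w : W n}
    (hw : w ∈ UU (n := n) x k) : w ∈ J.source := by
  apply hJ
  rw [mem_closedBall_zero_iff]
  exact (UU_norm hw).le

/-- points of balls with large numbers and converging heights -/
theorem UU_tendsto {x : ℕ → ℝ} {φ : ℕ → ℕ} {z : ℕ → W n} {t : ℝ} (hφ : Tendsto φ atTop atTop)
    (ht : Tendsto (fun i => ht x (φ i)) atTop (𝓝 t)) (hz : ∀ i, z i ∈ UU (n := n) x (φ i)) :
    Tendsto z atTop (𝓝 (seg t)) := by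
  have h1 : Tendsto (fun i => (cen x (φ i) : W n)) atTop (𝓝 (seg t)) := by
    have h2 : Tendsto (fun i => ((rp (φ i) : ℝ) : ℂ) + ((Pool.Agent.Q215.TD.ht x (φ i) : ℝ) : ℂ) * Complex.I)
        atTop (𝓝 (((0 : ℝ) : ℂ) + ((t : ℝ) : ℂ) * Complex.I)) := by
      refine Tendsto.add ?_ (Tendsto.mul_const _ ?_)
      · exact (Complex.continuous_ofReal.tendsto 0).comp (rp_tendsto.comp hφ)
      · exact (Complex.continuous_ofReal.tendsto t).comp ht
    have h3 : ∀ i, (cen x (φ i) : W n) =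
        (((rp (φ i) : ℝ) : ℂ) + ((Pool.Agent.Q215.TD.ht x (φ i) : ℝ) : ℂ) * Complex.I,
          (0 : EuclideanSpace ℝ (Fin n))) := by
      intro i
      unfold cen
      rw [Complex.mk_eq_add_mul_I]
    have h4 : (seg t : W n) =
        ((((0 : ℝ) : ℂ) + ((t : ℝ) : ℂ) * Complex.I), (0 : EuclideanSpace ℝ (Fin n))) := by
      unfold seg
      rw [Complex.mk_eq_add_mul_I]
    rw [h4]
    simp_rw [h3]
    exact h2.prodMk_nhds tendsto_const_nhds
  have h5 : Tendsto (fun i => z i - cen x (φ i)) atTop (𝓝 0) := by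
    rw [tendsto_zero_iff_norm_tendsto_zero]
    exact squeeze_zero (fun i => norm_nonneg _) (fun i => UU_dist (hz i)) (rad_tendsto.comp hφ)
  have h6 := h5.add h1
  rw [zero_add] at h6
  refine h6.congr fun i => ?_
  rw [sub_add_cancel]

end Pool.Agent.Q275.TD
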