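import Pool.Agent.Q275.TD.Bas

/-!
# Project TD: job TD-INV1
-/

set_option autoImplicit false

namespace Pool.Agent.Q275.TD

open Filter Topology Pool.Agent.Q215.TD

variable {n : ℕ}

theorem UU_disj (hF : S_FVAL) {N : ℕ → ℕ} (hN : GoodN n N) {x : ℕ → ℝ} {k l : ℕ} {w : W n}
    (h1 : w ∈ UU (n := n) x k) (h2 : w ∈ UU (n := n) x l) : k = l := by
  have h3 := (hF n N hN 1 (Or.inl rfl) x).1 w k l
  refine h3 (lt_of_lt_of_le h1.1 ?_) (lt_of_lt_of_le h2.1 ?_)
  · exact pow_le_pow_left₀ (rad_pos k).le (by linarith [rad_pos k]) 2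
  · exact pow_le_pow_left₀ (rad_pos l).le (by linarith [rad_pos l]) 2

section

variable {M : Type} [TopologicalSpace M]

theorem tr_J {J : OpenPartialHomeomorph (W n) M} (F : W n → W n) {w : W n} (hw : w ∈ J.source) :
    tr J F (J w) = J (F w) := by
  unfold tr
  rw [if_pos (J.map_source hw), J.left_inv hw]

/-- the points which are not fixed -/
theorem nonfixed (hP : S_PER) (hF : S_FVAL) {N : ℕ → ℕ} (hN : GoodN n N) {x : ℕ → ℝ}
    {J : OpenPartialHomeomorph (W n) M} (hJ : Metric.closedBall 0 3 ⊆ J.source) (p : M) :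
    tr J (FF N 1 x) p ≠ p ↔ ∃ k, ∃ w ∈ UU (n := n) x k, J w = p := by
  obtain ⟨h1, h2, -, -⟩ := hP hF n N hN x
  constructor
  · intro h
    by_cases hp : p ∈ J.target
    · have hs : J.symm p ∈ J.source := J.map_target hp
      have hw : FF N 1 x (J.symm p) ≠ J.symm p := by
        intro hE
        apply h
        have h3 := tr_J (J := J) (FF N 1 x) hs
        rw [hE, J.right_inv hp] at h3
        exact h3
      have h3 : J.symm p ∈ {w : W n | FF N 1 x w ≠ w} := hw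
      rw [h1, Set.mem_iUnion] at h3
      obtain ⟨k, hk⟩ := h3
      exact ⟨k, _, hk, J.right_inv hp⟩
    · exfalso
      apply h
      unfold tr
      rw [if_neg hp]
  · rintro ⟨k, w, hw, rfl⟩ hE
    rw [tr_J _ (UU_source hJ hw)] at hE
    have h3 : FF N 1 x w = w := J.injOn (UU_source hJ (h2 k w hw)) (UU_source hJ hw) hE
    have h4 : w ∈ {w : W n | FF N 1 x w ≠ w} := by
      rw [h1, Set.mem_iUnion]
      exact ⟨k, hw⟩
    exact h4 h3

theorem iter_J (hP : S_PER) (hF : S_FVAL) {N : ℕ → ℕ} (hN : GoodN n N) {x : ℕ → ℝ}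
    {J : OpenPartialHomeomorph (W n) M} (hJ : Metric.closedBall 0 3 ⊆ J.source) {k : ℕ}
    {w : W n} (hw : w ∈ UU (n := n) x k) (m : ℕ) :
    (FF N 1 x)^[m] w ∈ UU (n := n) x k ∧
      (tr J (FF N 1 x))^[m] (J w) = J ((FF N 1 x)^[m] w) := by
  obtain ⟨-, h2, -, -⟩ := hP hF n N hN x
  induction m with
  | zero => exact ⟨hw, rfl⟩
  | succ m ih =>
    rw [Function.iterate_succ_apply', Function.iterate_succ_apply', ih.2,
      tr_J _ (UU_source hJ ih.1)]
    exact ⟨h2 k _ ih.1, rfl⟩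

theorem iter_conj {f g : M → M} (h : M ≃ₜ M) (hfg : ∀ p, h (f p) = g (h p)) (m : ℕ) (p : M) :
    h (f^[m] p) = g^[m] (h p) := by
  induction m with
  | zero => rfl
  | succ m ih => rw [Function.iterate_succ_apply', Function.iterate_succ_apply', hfg, ih]

/-- one direction -/
theorem step (hF : S_FVAL) (hU : S_UU) (hP : S_PER) {N : ℕ → ℕ} (hN : GoodN n N)
    {J : OpenPartialHomeomorph (W n) M} (hJ : Metric.closedBall 0 3 ⊆ J.source) {x y : ℕ → ℝ}
    (h : M ≃ₜ M) (hc : ∀ p, h (tr J (FF N 1 x) p) = tr J (FF N 1 y) (h p)) (k : ℕ) :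
    ∃ l, (∀ w ∈ UU (n := n) x k, ∃ w' ∈ UU (n := n) y l, h (J w) = J w') ∧ N l ≤ N k := by
  -- every point of the ball goes to some ball
  have hgo : ∀ w ∈ UU (n := n) x k, ∃ l, ∃ w' ∈ UU (n := n) y l, J w' = h (J w) := by
    intro w hw
    refine (nonfixed hP hF hN hJ (x := y) (h (J w))).1 ?_
    rw [← hc]
    intro hE
    exact (nonfixed hP hF hN hJ (x := x) (J w)).2 ⟨k, w, hw, rfl⟩ (h.injective hE)
  obtain ⟨hUo, ⟨w₀, hw₀⟩, hUp⟩ := hU n x k
  obtain ⟨l, w₁, hw₁, hE₁⟩ := hgo w₀ hw₀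
  set S : Set M := h '' (J '' UU (n := n) x k) with hS
  set A : Set M := J '' UU (n := n) y l with hA
  set B : Set M := ⋃ l' ∈ {l' : ℕ | l' ≠ l}, J '' UU (n := n) y l' with hB
  have hopen : ∀ l', IsOpen (J '' UU (n := n) y l') := fun l' =>
    J.isOpen_image_of_subset_source (hU n y l').1 fun w hw => UU_source hJ hw
  have hAo : IsOpen A := hopen l
  have hBo : IsOpen B := isOpen_biUnion fun l' _ => hopen l'
  have hAB : Disjoint A B := by
    rw [Set.disjoint_left]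
    rintro p ⟨u, hu, rfl⟩ hpB
    rw [hB, Set.mem_iUnion₂] at hpB
    obtain ⟨l', hl', v, hv, hE⟩ := hpB
    have h3 : v = u := J.injOn (UU_source hJ hv) (UU_source hJ hu) hE
    rw [h3] at hv
    exact hl' (UU_disj hF hN hv hu)
  have hSp : IsPreconnected S := by
    refine IsPreconnected.image ?_ h h.continuous.continuousOn
    refine hUp.image J (J.continuousOn.mono fun w hw => UU_source hJ hw)
  have hSAB : S ⊆ A ∪ B := by
    rintro p ⟨q, ⟨w, hw, rfl⟩, rfl⟩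
    obtain ⟨l', w', hw', hE'⟩ := hgo w hw
    by_cases hl : l' = l
    · left
      rw [hl] at hw'
      exact ⟨w', hw', hE'⟩
    · right
      rw [hB, Set.mem_iUnion₂]
      exact ⟨l', hl, w', hw', hE'⟩
  have hSA : S ⊆ A := by
    refine IsPreconnected.subset_left_of_subset_union hAo hBo hAB hSAB ?_ hSp
    exact ⟨h (J w₀), ⟨J w₀, ⟨w₀, hw₀, rfl⟩, rfl⟩, ⟨w₁, hw₁, hE₁⟩⟩
  have hmap : ∀ w ∈ UU (n := n) x k, ∃ w' ∈ UU (n := n) y l, h (J w) = J w' := by
    intro w hw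
    obtain ⟨w', hw', hE'⟩ := hSA ⟨J w, ⟨w, hw, rfl⟩, rfl⟩
    exact ⟨w', hw', hE'.symm⟩
  refine ⟨l, hmap, ?_⟩
  obtain ⟨-, -, -, hper⟩ := hP hF n N hN x
  obtain ⟨-, -, hnon, -⟩ := hP hF n N hN y
  obtain ⟨w, hw, hfix⟩ := hper k
  obtain ⟨w', hw', hE'⟩ := hmap w hw
  by_contra hcon
  push Not at hcon
  have h2 : 0 < N k := by have := hN.two k; omega
  refine hnon l w' hw' (N k) h2 hcon ?_
  have h3 := iter_J hP hF hN hJ hw (N k)
  have h4 := iter_J hP hF hN hJ hw' (N k)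
  have h5 := iter_conj h hc (N k) (J w)
  rw [h3.2, hfix, hE', h4.2] at h5
  exact (J.injOn (UU_source hJ hw') (UU_source hJ h4.1) h5).symm

end

theorem t_INV1 : S_INV1 := by
  intro hF hU hP _ n N hN M _ _ J hJ x y h hc k
  obtain ⟨l, hl, hNl⟩ := step hF hU hP hN hJ h hc k
  have hc' : ∀ p, h.symm (tr J (FF N 1 y) p) = tr J (FF N 1 x) (h.symm p) := by
    intro p
    apply h.injective
    rw [h.apply_symm_apply, hc, h.apply_symm_apply]
  obtain ⟨k', hk', hNk⟩ := step hF hU hP hN hJ h.symm hc' l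
  obtain ⟨-, ⟨w₀, hw₀⟩, -⟩ := hU n x k
  obtain ⟨w₁, hw₁, hE₁⟩ := hl w₀ hw₀
  obtain ⟨w₂, hw₂, hE₂⟩ := hk' w₁ hw₁
  rw [← hE₁, h.symm_apply_apply] at hE₂
  have h1 : w₀ = w₂ := J.injOn (UU_source hJ hw₀) (UU_source hJ hw₂) hE₂
  rw [← h1] at hw₂
  have h2 : k = k' := UU_disj hF hN hw₀ hw₂
  rw [← h2] at hNk
  have h3 : k = l := hN.mono.injective (le_antisymm hNk hNl)
  rw [← h3] at hl
  exact hl

end Pool.Agent.Q275.TD
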