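import Pool.Agent.Q275.TD.Bas

/-!
# Project TD: job TD-INV2
-/

set_option autoImplicit false

namespace Pool.Agent.Q275.TD

open Filter Topology Pool.Agent.Q215.TD

variable {n : ℕ}

theorem seg_source {M : Type} [TopologicalSpace M] {J : OpenPartialHomeomorph (W n) M}
    (hJ : Metric.closedBall 0 3 ⊆ J.source) {t : ℝ} (h0 : 0 ≤ t) (h1 : t ≤ 1) :
    (seg t : W n) ∈ J.source := by
  apply hJ
  rw [mem_closedBall_zero_iff, norm_prod_le_iff]
  constructor
  · refine (Complex.norm_le_abs_re_add_abs_im _).trans ?_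
    show |(0 : ℝ)| + |t| ≤ 3
    rw [abs_zero, abs_of_nonneg h0]
    linarith
  · show ‖(0 : EuclideanSpace ℝ (Fin n))‖ ≤ 3
    rw [norm_zero]
    norm_num

theorem qs_dense {t : ℝ} (h0 : 0 ≤ t) (h1 : t ≤ 1) (ε : ℝ) (hε : 0 < ε) (i : ℕ) :
    ∃ j, i ≤ j ∧ |qs j - t| < ε := by
  have hd := TopologicalSpace.denseRange_denseSeq (Set.Icc (0 : ℝ) 1)
  obtain ⟨m, hm⟩ := hd.exists_dist_lt (⟨t, h0, h1⟩ : Set.Icc (0 : ℝ) 1) hε
  refine ⟨Nat.pair m i, Nat.right_le_pair _ _, ?_⟩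
  unfold qs
  rw [Nat.unpair_pair]
  rw [dist_comm, Subtype.dist_eq, Real.dist_eq] at hm
  exact hm

theorem limit_pts {M : Type} [TopologicalSpace M] [T2Space M] {J : OpenPartialHomeomorph (W n) M}
    (hJ : Metric.closedBall 0 3 ⊆ J.source) {x y : ℕ → ℝ} {h : M → M} (hh : Continuous h)
    (hne : ∀ k, (UU (n := n) x k).Nonempty)
    (hk : ∀ k, ∀ w ∈ UU (n := n) x k, ∃ w' ∈ UU (n := n) y k, h (J w) = J w')
    {φ : ℕ → ℕ} {s t : ℝ} (hφ : Tendsto φ atTop atTop)
    (hx : Tendsto (fun i => ht x (φ i)) atTop (𝓝 s))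
    (hy : Tendsto (fun i => ht y (φ i)) atTop (𝓝 t)) (hs0 : 0 ≤ s) (hs1 : s ≤ 1) (ht0 : 0 ≤ t)
    (ht1 : t ≤ 1) : h (J (seg s)) = J (seg t) := by
  choose w hw using hne
  have h1 : ∀ k, ∃ w' ∈ UU (n := n) y k, h (J (w k)) = J w' := fun k => hk k (w k) (hw k)
  choose w' hw' hE using h1
  have l1 : Tendsto (fun i => w (φ i)) atTop (𝓝 (seg s)) := UU_tendsto hφ hx fun i => hw (φ i)
  have l2 : Tendsto (fun i => w' (φ i)) atTop (𝓝 (seg t)) := UU_tendsto hφ hy fun i => hw' (φ i)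
  have l3 : Tendsto (fun i => h (J (w (φ i)))) atTop (𝓝 (h (J (seg s)))) :=
    (hh.tendsto _).comp ((J.continuousAt (seg_source hJ hs0 hs1)).tendsto.comp l1)
  have l4 : Tendsto (fun i => J (w' (φ i))) atTop (𝓝 (J (seg t))) :=
    (J.continuousAt (seg_source hJ ht0 ht1)).tendsto.comp l2
  have l5 : (fun i => h (J (w (φ i)))) = fun i => J (w' (φ i)) := by
    funext i
    exact hE (φ i)
  rw [l5] at l3
  exact tendsto_nhds_unique l3 l4

theorem t_INV2 : S_INV2 := by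
  intro n M _ _ J hJ x y h hh hne hk
  -- the segment is fixed
  have hseg : ∀ t : ℝ, 0 ≤ t → t ≤ 1 → h (J (seg t)) = J (seg t) := by
    intro t h0 h1
    have hj : ∀ i : ℕ, ∃ j, i ≤ j ∧ |qs j - t| < 1 / ((i : ℝ) + 1) := fun i =>
      qs_dense h0 h1 _ (by positivity) i
    choose j hj1 hj2 using hj
    have hodd : ∀ (z : ℕ → ℝ) (i : ℕ), ht z (2 * j i + 1) = qs (j i) := by
      intro z i
      unfold ht
      have e1 : (2 * j i + 1) % 2 = 1 := by omega
      have e2 : (2 * j i + 1) / 2 = j i := by omega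
      rw [e1, e2, if_neg one_ne_zero]
    have hlim : Tendsto (fun i => qs (j i)) atTop (𝓝 t) := by
      rw [tendsto_iff_dist_tendsto_zero]
      refine squeeze_zero (fun i => dist_nonneg) (fun i => ?_)
        tendsto_one_div_add_atTop_nhds_zero_nat
      rw [Real.dist_eq]
      exact (hj2 i).le
    refine limit_pts hJ hh hne hk (φ := fun i => 2 * j i + 1) (s := t) (t := t) ?_ ?_ ?_ h0 h1 h0 h1
    · refine tendsto_atTop_mono (fun i => ?_) tendsto_id
      have := hj1 i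
      simp only [id]
      omega
    · simp_rw [hodd]
      exact hlim
    · simp_rw [hodd]
      exact hlim
  by_contra hcon
  rw [Metric.tendsto_atTop] at hcon
  push Not at hcon
  obtain ⟨ε, hε, hcon⟩ := hcon
  have hfreq : ∃ᶠ i in atTop, ε ≤ |Pool.Agent.Q215.TD.sq (x i) - Pool.Agent.Q215.TD.sq (y i)| := by
    rw [frequently_atTop]
    intro a
    obtain ⟨b, hb1, hb2⟩ := hcon a
    refine ⟨b, hb1, ?_⟩
    rw [Real.dist_eq, sub_zero] at hb2
    exact hb2
  obtain ⟨ψ, hψ, hψ2⟩ := extraction_of_frequently_atTop hfreq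
  have hcpt : IsCompact ((Set.Icc (1 / 4 : ℝ) (3 / 4)) ×ˢ (Set.Icc (1 / 4 : ℝ) (3 / 4))) :=
    isCompact_Icc.prod isCompact_Icc
  obtain ⟨⟨a, b⟩, hab, θ, hθ, hθ2⟩ := hcpt.tendsto_subseq
    (x := fun i => (Pool.Agent.Q215.TD.sq (x (ψ i)), Pool.Agent.Q215.TD.sq (y (ψ i)))) (fun i =>
      ⟨sq_mem _, sq_mem _⟩)
  have la : Tendsto (fun i => Pool.Agent.Q215.TD.sq (x (ψ (θ i)))) atTop (𝓝 a) :=
    (continuous_fst.tendsto _).comp hθ2
  have lb : Tendsto (fun i => Pool.Agent.Q215.TD.sq (y (ψ (θ i)))) atTop (𝓝 b) :=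
    (continuous_snd.tendsto _).comp hθ2
  have hεab : ε ≤ |a - b| := by
    refine ge_of_tendsto (la.sub lb).abs ?_
    exact Eventually.of_forall fun i => hψ2 (θ i)
  obtain ⟨⟨ha1, ha2⟩, ⟨hb1, hb2⟩⟩ := hab
  have hev : ∀ (z : ℕ → ℝ) (i : ℕ), ht z (2 * ψ (θ i)) = Pool.Agent.Q215.TD.sq (z (ψ (θ i))) := by
    intro z i
    unfold ht
    have e1 : (2 * ψ (θ i)) % 2 = 0 := by omega
    have e2 : (2 * ψ (θ i)) / 2 = ψ (θ i) := by omega
    rw [if_pos e1, e2]
  have hE : h (J (seg a)) = J (seg b) := by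
    refine limit_pts hJ hh hne hk (φ := fun i => 2 * ψ (θ i)) ?_ ?_ ?_ ?_ ?_ ?_ ?_
    · refine tendsto_atTop_mono (fun i => ?_) tendsto_id
      have h1 := (hψ.comp hθ).le_apply (x := i)
      simp only [Function.comp] at h1
      simp only [id]
      omega
    · simp_rw [hev]
      exact la
    · simp_rw [hev]
      exact lb
    all_goals simp only at *
    all_goals linarith
  rw [hseg a (by simp only at *; linarith) (by simp only at *; linarith)] at hE
  have hinj := J.injOn (seg_source hJ (by simp only at *; linarith) (by simp only at *; linarith))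
    (seg_source hJ (by simp only at *; linarith) (by simp only at *; linarith)) hE
  have h2 : a = b := by
    have h3 := congrArg (fun v : W n => v.1.im) hinj
    exact h3
  rw [h2, sub_self, abs_zero] at hεab
  linarith

end Pool.Agent.Q275.TD
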